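import Pool.Agent.H88.KN.Targets

/-!
MP_b5bf4a_co, dense range, module WS: the walk makes unit steps (helper56).
-/

namespace Pool.Agent.H56.KN

open Finset Pool.Agent.H88.KN

theorem pf_WS : T_WS := by
  intro M b hb i
  have h1 : wk M b (i + 1) =
      ∑ t ∈ range M, (fun t : ℕ => if b (i - t) = true then (1 : ℤ) else 0) t := by
    unfold wk
    refine sum_congr rfl fun t _ => ?_
    have : i + 1 - 1 - (t : ℤ) = i - t := by ring
    simp only [this]
  have h2 : wk M b i =
      ∑ t ∈ range M, (fun t : ℕ => if b (i - t) = true then (1 : ℤ) else 0) (t + 1) := by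
    unfold wk
    refine sum_congr rfl fun t _ => ?_
    have : i - 1 - (t : ℤ) = i - ((t + 1 : ℕ) : ℤ) := by push_cast; ring
    simp only [this]
  have h3 := sum_range_succ (fun t : ℕ => if b (i - t) = true then (1 : ℤ) else 0) M
  have h4 := sum_range_succ' (fun t : ℕ => if b (i - t) = true then (1 : ℤ) else 0) M
  have h5 := hb (i - M)
  have h6 : i - (M : ℤ) + M = i := by ring
  rw [h6] at h5
  rw [h1, h2]
  have h0 : i - ((0 : ℕ) : ℤ) = i := by simp
  simp only [h0] at h3 h4
  rw [h5] at h4 ⊢
  cases hc : b (i - M) <;> simp [hc] at h3 h4 ⊢ <;> linarith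

end Pool.Agent.H56.KN
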